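import Mathlib

set_option autoImplicit false

/-!
The powering construction of small bias strings hits every coset of a subgroup of small index.
-/

namespace Helper20.Comm

open Finset

/-- the sign character of `ZMod 2` -/
noncomputable def sgn (t : ZMod 2) : ℂ := if t = 0 then 1 else -1

lemma sgn_add (a b : ZMod 2) : sgn (a + b) = sgn a * sgn b := by
  have h : ∀ t : ZMod 2, t = 0 ∨ t = 1 := by decide
  have e : (1 : ZMod 2) + 1 = 0 := by decide
  rcases h a with rfl | rfl <;> rcases h b with rfl | rfl <;> simp [sgn, e]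

lemma sgn_zero : sgn 0 = 1 := by simp [sgn]

lemma sgn_sum {ι : Type*} [DecidableEq ι] (S : Finset ι) (f : ι → ZMod 2) :
    sgn (∑ i ∈ S, f i) = ∏ i ∈ S, sgn (f i) := by
  induction S using Finset.induction_on with
  | empty => simp [sgn_zero]
  | insert i S hi ih => rw [Finset.sum_insert hi, Finset.prod_insert hi, sgn_add, ih]

lemma addChar_sum {A ι : Type*} [AddCommMonoid A] [DecidableEq ι] (ψ : AddChar A ℂ)
    (S : Finset ι) (f : ι → A) : ψ (∑ i ∈ S, f i) = ∏ i ∈ S, ψ (f i) := by
  induction S using Finset.induction_on with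
  | empty => simp
  | insert i S hi ih =>
    rw [Finset.sum_insert hi, Finset.prod_insert hi, AddChar.map_add_eq_mul, ih]

variable {F : Type*} [Field F] [Fintype F] [Algebra (ZMod 2) F]

/-- the string with parameters `a`, `b` -/
noncomputable def str (n : ℕ) (a b : F) : Fin n → ZMod 2 :=
  fun i => Algebra.trace (ZMod 2) F (b * a ^ (i : ℕ))

lemma exists_trace_one [Algebra.IsSeparable (ZMod 2) F] (c : F) (hc : c ≠ 0) :
    ∃ b : F, Algebra.trace (ZMod 2) F (b * c) = 1 := by
  have : FiniteDimensional (ZMod 2) F := Module.Finite.of_finite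
  obtain ⟨b, hb⟩ := Algebra.trace_surjective (ZMod 2) F 1
  exact ⟨b * c⁻¹, by rw [mul_assoc, inv_mul_cancel₀ hc, mul_one, hb]⟩

lemma sum_sgn_trace [Algebra.IsSeparable (ZMod 2) F] (c : F) (hc : c ≠ 0) :
    ∑ b : F, sgn (Algebra.trace (ZMod 2) F (b * c)) = 0 := by
  obtain ⟨b₀, hb₀⟩ := exists_trace_one c hc
  have h : ∑ b : F, sgn (Algebra.trace (ZMod 2) F (b * c))
      = ∑ b : F, sgn (Algebra.trace (ZMod 2) F ((b + b₀) * c)) :=
    (Equiv.sum_comp (Equiv.addRight b₀) (fun b => sgn (Algebra.trace (ZMod 2) F (b * c)))).symm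
  have h2 : ∑ b : F, sgn (Algebra.trace (ZMod 2) F ((b + b₀) * c))
      = - ∑ b : F, sgn (Algebra.trace (ZMod 2) F (b * c)) := by
    rw [← Finset.sum_neg_distrib]
    apply Finset.sum_congr rfl
    intro b _
    rw [add_mul, map_add, sgn_add, hb₀]
    simp [sgn]
  rw [h2] at h
  have : (2 : ℂ) * ∑ b : F, sgn (Algebra.trace (ZMod 2) F (b * c)) = 0 := by
    rw [two_mul]; nth_rewrite 1 [h]; ring
  simpa using this

open Polynomial in
lemma card_roots_le (n : ℕ) (I : Finset (Fin n)) (hI : I.Nonempty) [DecidableEq F] :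
    (univ.filter (fun a : F => ∑ i ∈ I, a ^ (i : ℕ) = 0)).card ≤ n := by
  set P : F[X] := ∑ i ∈ I, X ^ (i : ℕ) with hP
  have hcoef : ∀ i ∈ I, P.coeff (i : ℕ) = 1 := by
    intro i hi
    rw [hP, finsetSum_coeff]
    rw [Finset.sum_eq_single i]
    · simp
    · intro j _ hj
      rw [coeff_X_pow, if_neg]
      intro h
      exact hj (Fin.ext h).symm
    · intro h; exact absurd hi h
  have hP0 : P ≠ 0 := by
    obtain ⟨i, hi⟩ := hI
    intro h
    have := hcoef i hi
    rw [h, coeff_zero] at this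
    exact zero_ne_one this
  have hdeg : P.natDegree ≤ n := by
    rw [hP]
    apply natDegree_sum_le_of_forall_le
    intro i _
    rw [natDegree_X_pow]
    exact i.2.le
  have hsub : (univ.filter (fun a : F => ∑ i ∈ I, a ^ (i : ℕ) = 0)) ⊆ P.roots.toFinset := by
    intro a ha
    rw [Finset.mem_filter] at ha
    rw [Multiset.mem_toFinset, mem_roots hP0, IsRoot, hP, eval_finsetSum]
    simpa using ha.2
  calc _ ≤ P.roots.toFinset.card := Finset.card_le_card hsub
    _ ≤ Multiset.card P.roots := Multiset.toFinset_card_le _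
    _ ≤ P.natDegree := card_roots' _
    _ ≤ n := hdeg

lemma char_bound [Algebra.IsSeparable (ZMod 2) F] (n : ℕ) (ψ : AddChar (Fin n → ZMod 2) ℂ)
    (hψ : ψ ≠ 1) :
    ‖∑ a : F, ∑ b : F, ψ (str n a b)‖ ≤ n * Fintype.card F := by
  classical
  have hpm : ∀ i, ψ (Pi.single i 1) = 1 ∨ ψ (Pi.single i 1) = -1 := by
    intro i
    have h : ψ (Pi.single i 1) * ψ (Pi.single i 1) = 1 := by
      rw [← AddChar.map_add_eq_mul, ← Pi.single_add]
      have e : (1 : ZMod 2) + 1 = 0 := by decide
      rw [e, Pi.single_zero, AddChar.map_zero_eq_one]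
    exact mul_self_eq_one_iff.1 h
  set I : Finset (Fin n) := univ.filter (fun i => ψ (Pi.single i 1) = -1) with hI
  have hval : ∀ z : Fin n → ZMod 2, ψ z = sgn (∑ i ∈ I, z i) := by
    intro z
    have hz : z = ∑ i, Pi.single i (z i) := (Finset.univ_sum_single z).symm
    conv_lhs => rw [hz, addChar_sum]
    rw [sgn_sum, hI, Finset.prod_filter]
    apply Finset.prod_congr rfl
    intro i _
    have h : ∀ t : ZMod 2, t = 0 ∨ t = 1 := by decide
    rcases h (z i) with h0 | h0 <;> rw [h0]
    · simp [sgn]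
    · rcases hpm i with h1 | h1
      · rw [h1, if_neg]
        norm_num
      · rw [h1, if_pos rfl]
        simp [sgn]
  have hIne : I.Nonempty := by
    rw [Finset.nonempty_iff_ne_empty]
    intro h
    apply hψ
    ext z
    rw [hval, h]
    simp [sgn_zero]
  have hsum : ∀ a b : F, ψ (str n a b)
      = sgn (Algebra.trace (ZMod 2) F (b * ∑ i ∈ I, a ^ (i : ℕ))) := by
    intro a b
    rw [hval, Finset.mul_sum, map_sum]
    rfl
  have hin : ∀ a : F, ∑ b : F, ψ (str n a b)
      = if ∑ i ∈ I, a ^ (i : ℕ) = 0 then (Fintype.card F : ℂ) else 0 := by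
    intro a
    split_ifs with h
    · simp only [hsum, h, mul_zero, map_zero, sgn_zero]
      simp
    · simp only [hsum]
      exact sum_sgn_trace _ h
  simp only [hin]
  rw [← Finset.sum_filter, Finset.sum_const, nsmul_eq_mul, norm_mul]
  rw [Complex.norm_natCast, Complex.norm_natCast]
  gcongr
  exact card_roots_le n I hIne

theorem hit_coset [Algebra.IsSeparable (ZMod 2) F] (n : ℕ) (L : AddSubgroup (Fin n → ZMod 2))
    (y : Fin n → ZMod 2) (h : n * L.index < Fintype.card F) :
    ∃ a b : F, str n a b - y ∈ L := by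
  classical
  by_contra hno
  push Not at hno
  let A := (Fin n → ZMod 2) ⧸ L
  have : Fintype A := Fintype.ofFinite A
  have hcard : L.index = Fintype.card A := by
    rw [AddSubgroup.index, Nat.card_eq_fintype_card]
  let π : (Fin n → ZMod 2) →+ A := QuotientAddGroup.mk' L
  have hπ : ∀ a b : F, π (str n a b - y) ≠ 0 := by
    intro a b h0
    exact hno a b ((QuotientAddGroup.eq_zero_iff _).1 h0)
  have hzero : ∑ a : F, ∑ b : F, ∑ χ : AddChar A ℂ, χ (π (str n a b - y)) = 0 := by
    apply Finset.sum_eq_zero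
    intro a _
    apply Finset.sum_eq_zero
    intro b _
    rw [AddChar.sum_apply_eq_ite, if_neg (hπ a b)]
  have hswap : ∑ a : F, ∑ b : F, ∑ χ : AddChar A ℂ, χ (π (str n a b - y))
      = ∑ χ : AddChar A ℂ, χ (π (-y)) * ∑ a : F, ∑ b : F, χ (π (str n a b)) := by
    have e1 : ∀ a b : F, ∀ χ : AddChar A ℂ, χ (π (str n a b - y))
        = χ (π (-y)) * χ (π (str n a b)) := by
      intro a b χ
      rw [← AddChar.map_add_eq_mul, ← map_add, neg_add_eq_sub]
    calc ∑ a : F, ∑ b : F, ∑ χ : AddChar A ℂ, χ (π (str n a b - y))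
        = ∑ a : F, ∑ χ : AddChar A ℂ, ∑ b : F, χ (π (str n a b - y)) :=
          Finset.sum_congr rfl (fun a _ => Finset.sum_comm)
      _ = ∑ χ : AddChar A ℂ, ∑ a : F, ∑ b : F, χ (π (str n a b - y)) := Finset.sum_comm
      _ = _ := by
        apply Finset.sum_congr rfl
        intro χ _
        simp only [e1, Finset.mul_sum]
  rw [hswap] at hzero
  rw [← Finset.add_sum_erase univ _ (Finset.mem_univ (1 : AddChar A ℂ))] at hzero
  have h1 : (1 : AddChar A ℂ) (π (-y)) * ∑ a : F, ∑ b : F, (1 : AddChar A ℂ) (π (str n a b))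
      = (Fintype.card F : ℂ) * Fintype.card F := by
    simp
  rw [h1] at hzero
  have h2 : ‖∑ χ ∈ univ.erase (1 : AddChar A ℂ),
      χ (π (-y)) * ∑ a : F, ∑ b : F, χ (π (str n a b))‖
      ≤ ((univ.erase (1 : AddChar A ℂ)).card : ℝ) * (n * Fintype.card F) := by
    refine (norm_sum_le _ _).trans ?_
    rw [← nsmul_eq_mul]
    apply Finset.sum_le_card_nsmul
    intro χ hχ
    rw [Finset.mem_erase] at hχ
    rw [norm_mul, AddChar.norm_apply, one_mul]
    let ψ : AddChar (Fin n → ZMod 2) ℂ := χ.compAddMonoidHom π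
    have hψ : ψ ≠ 1 := by
      intro h
      apply hχ.1
      ext a
      obtain ⟨z, rfl⟩ := QuotientAddGroup.mk_surjective a
      have h0 := DFunLike.congr_fun h z
      have h1 : χ (π z) = 1 := by simpa [ψ] using h0
      rw [AddChar.one_apply]
      exact h1
    exact char_bound n ψ hψ
  have hc : (univ.erase (1 : AddChar A ℂ)).card = L.index - 1 := by
    rw [Finset.card_erase_of_mem (Finset.mem_univ _), Finset.card_univ, AddChar.card_eq, ← hcard]
  have h3 : ((Fintype.card F : ℂ) * Fintype.card F)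
      = - ∑ χ ∈ univ.erase (1 : AddChar A ℂ),
        χ (π (-y)) * ∑ a : F, ∑ b : F, χ (π (str n a b)) := eq_neg_of_add_eq_zero_left hzero
  have h4 : (Fintype.card F : ℝ) * Fintype.card F ≤ ((L.index - 1 : ℕ) : ℝ) * (n * Fintype.card F) := by
    rw [← hc]
    refine le_trans (le_of_eq ?_) h2
    rw [← norm_neg, ← h3, norm_mul, Complex.norm_natCast]
  have hF : 0 < (Fintype.card F : ℝ) := by exact_mod_cast Fintype.card_pos
  have h5 : (Fintype.card F : ℝ) ≤ ((L.index - 1 : ℕ) : ℝ) * n := by
    have : (Fintype.card F : ℝ) * Fintype.card F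
        ≤ (((L.index - 1 : ℕ) : ℝ) * n) * Fintype.card F := by linarith [h4]
    exact le_of_mul_le_mul_right this hF
  have h6 : Fintype.card F ≤ (L.index - 1) * n := by exact_mod_cast h5
  have h7 : (L.index - 1) * n ≤ L.index * n := Nat.mul_le_mul_right _ (Nat.sub_le _ _)
  have h8 : L.index * n = n * L.index := mul_comm _ _
  omega

end Helper20.Comm
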