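import Mathlib

set_option autoImplicit false

/-!
Commuting actions with `s^3 = s`: structure of the set of strings leading to a likely state.
-/

namespace Helper20.Comm

open Finset

variable {M Q : Type*} [CommMonoid M] [MulAction M Q]

/-- Products of families acting in the same way on `p` act in the same way on `p`. -/
lemma prod_act_congr {ι : Type*} [DecidableEq ι] (S : Finset ι) (a b : ι → M) (p : Q)
    (h : ∀ i ∈ S, a i • p = b i • p) : (∏ i ∈ S, a i) • p = (∏ i ∈ S, b i) • p := by
  induction S using Finset.induction_on with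
  | empty => simp
  | insert i S hi ih =>
    rw [Finset.prod_insert hi, Finset.prod_insert hi, mul_smul,
      ih (fun j hj => h j (Finset.mem_insert_of_mem hj)), ← mul_smul, mul_comm, mul_smul,
      h i (Finset.mem_insert_self _ _), ← mul_smul, mul_comm]

lemma prod_act_fix {ι : Type*} [DecidableEq ι] (S : Finset ι) (a : ι → M) (p : Q)
    (h : ∀ i ∈ S, a i • p = p) : (∏ i ∈ S, a i) • p = p := by
  have := prod_act_congr S a (fun _ => (1 : M)) p (fun i hi => by simpa using h i hi)
  simpa using this

lemma cube_sq {a : M} (h : a ^ 3 = a) : a ^ 2 * a ^ 2 = a ^ 2 := by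
  have : a ^ 2 * a ^ 2 = a ^ 3 * a := by rw [← pow_add, ← pow_succ]
  rw [this, h, pow_two]

lemma two_mul_two_pow (t : ZMod 2) : t = 0 ∨ t = 1 := by
  revert t; decide

variable {n : ℕ}

/-- value of the string `x` -/
def val (s : Fin n → ZMod 2 → M) (x : Fin n → ZMod 2) : M := ∏ i, s i (x i)

variable [Fintype Q] [DecidableEq Q]

/-- Number of subsets of an irredundant family of idempotents is at most the number of states. -/
lemma irredundant (s : Fin n → M) (hs : ∀ i, s i * s i = s i) (q p : Q) (T : Finset (Fin n))
    (hT : (∏ i ∈ T, s i) • q = p) (hmin : ∀ i ∈ T, (∏ j ∈ T.erase i, s j) • q ≠ p) :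
    2 ^ T.card ≤ Fintype.card Q := by
  classical
  rw [← Finset.card_powerset]
  have key : ∀ A ∈ T.powerset, ∀ B ∈ T.powerset,
      (∏ i ∈ A, s i) • q = (∏ i ∈ B, s i) • q → A ⊆ B := by
    intro A hA B hB hAB i hiA
    by_contra hiB
    rw [Finset.mem_powerset] at hA hB
    have hiT := hA hiA
    apply hmin i hiT
    have absorb : ∀ (C D : Finset (Fin n)), C ⊆ D →
        (∏ j ∈ C, s j) * (∏ j ∈ D, s j) = ∏ j ∈ D, s j := by
      intro C D hCD
      rw [← Finset.prod_sdiff hCD, mul_comm, mul_assoc, ← Finset.prod_mul_distrib]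
      congr 1
      exact Finset.prod_congr rfl (fun j _ => hs j)
    have hBsub : B ⊆ T.erase i := fun j hj => Finset.mem_erase.2
      ⟨fun h => hiB (h ▸ hj), hB hj⟩
    have h1 : (∏ j ∈ T.erase i, s j) • q
        = ((∏ j ∈ T.erase i, s j) * (∏ j ∈ B, s j)) • q := by
      rw [mul_comm, absorb B _ hBsub]
    rw [h1, mul_smul, ← hAB, ← mul_smul]
    have h2 : (∏ j ∈ T.erase i, s j) * (∏ j ∈ A, s j) = ∏ j ∈ T, s j := by
      have hA' : A = insert i (A.erase i) := (Finset.insert_erase hiA).symm
      have h3 : (∏ j ∈ A, s j) = s i * ∏ j ∈ A.erase i, s j := by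
        rw [Finset.mul_prod_erase A s hiA]
      have h4 : (∏ j ∈ T.erase i, s j) * (∏ j ∈ A.erase i, s j) = ∏ j ∈ T.erase i, s j := by
        rw [mul_comm, absorb]
        intro j hj
        rw [Finset.mem_erase] at hj ⊢
        exact ⟨hj.1, hA hj.2⟩
      rw [h3, mul_left_comm, h4, Finset.mul_prod_erase T s hiT]
    rw [h2, hT]
  refine Finset.card_le_card_of_injOn (fun A => (∏ i ∈ A, s i) • q) (fun _ _ => Finset.mem_univ _) ?_
  intro A hA B hB hAB
  exact Finset.Subset.antisymm (key A hA B hB hAB) (key B hB A hA hAB.symm)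

/-- The main structural statement: a state reached by many strings is reached by all strings
of a coset of a subgroup of small index. -/
theorem exists_coset (s : Fin n → ZMod 2 → M) (hs : ∀ i b, s i b ^ 3 = s i b) (q : Q)
    (y : Fin n → ZMod 2) (N : ℕ)
    (hN : N ≤ (univ.filter (fun x : Fin n → ZMod 2 => val s x • q = val s y • q)).card) :
    ∃ L : AddSubgroup (Fin n → ZMod 2), (∀ x, x - y ∈ L → val s x • q = val s y • q) ∧
      N * L.index ≤ 2 ^ n * Fintype.card Q ^ 2 := by
  classical
  set w := Fintype.card Q with hw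
  set r : Q := val s y • q with hr
  set p : Q := (∏ i, (s i (y i)) ^ 2) • q with hp
  have hsq : ∀ i b, s i b ^ 2 * s i b ^ 2 = s i b ^ 2 := fun i b => cube_sq (hs i b)
  have hval2 : ∀ x, val s x ^ 2 = ∏ i, (s i (x i)) ^ 2 := by
    intro x; rw [val, Finset.prod_pow]
  -- strings reaching r
  have hreach : ∀ x, val s x • q = r → p = val s x ^ 2 • q := by
    intro x hx
    have e1 : p = val s y • (val s y • q) := by
      rw [← mul_smul, ← pow_two, hval2]
    rw [e1, ← hr, ← hx, ← mul_smul, mul_comm, mul_smul, ← hr, ← hx, ← mul_smul, ← pow_two]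
  have hcompat : ∀ x, val s x • q = r → ∀ i, (s i (x i)) ^ 2 • p = p := by
    intro x hx i
    rw [hreach x hx, ← mul_smul, hval2]
    congr 1
    rw [← Finset.mul_prod_erase univ (fun j => (s j (x j)) ^ 2) (Finset.mem_univ i),
      ← mul_assoc, hsq]
  -- forced coordinates
  set K : Finset (Fin n) := univ.filter (fun i => ¬ ∀ b, (s i b) ^ 2 • p = p) with hK
  have hforced : ∀ x, val s x • q = r → ∀ i ∈ K, x i = y i := by
    intro x hx i hi
    by_contra hne
    rw [hK, Finset.mem_filter] at hi
    apply hi.2
    intro b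
    have h1 := hcompat x hx i
    have h2 := hcompat y rfl i
    rcases two_mul_two_pow b with rfl | rfl <;> rcases two_mul_two_pow (x i) with h | h <;>
      rcases two_mul_two_pow (y i) with h' | h' <;> rw [h] at h1 <;> rw [h'] at h2 <;>
      first
        | exact h1
        | exact h2
        | exact absurd (h.trans h'.symm) hne
  have hcardK : N * 2 ^ K.card ≤ 2 ^ n := by
    have h1 : (univ.filter (fun x : Fin n → ZMod 2 => val s x • q = r)).card
        ≤ (univ : Finset ({i // i ∉ K} → ZMod 2)).card := by
      refine Finset.card_le_card_of_injOn (fun x i => x i.1) (fun _ _ => Finset.mem_univ _) ?_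
      intro x hx x' hx' hxx
      rw [Finset.mem_coe, Finset.mem_filter] at hx hx'
      funext i
      by_cases hi : i ∈ K
      · rw [hforced x hx.2 i hi, hforced x' hx'.2 i hi]
      · exact congrFun hxx ⟨i, hi⟩
    have h2 : (univ : Finset ({i // i ∉ K} → ZMod 2)).card = 2 ^ (n - K.card) := by
      rw [Finset.card_univ, Fintype.card_fun, ZMod.card]
      congr 1
      have := Fintype.card_subtype_compl (fun i => i ∈ K)
      rw [this, Fintype.card_fin]
      simp
    have hKn : K.card ≤ n := by simpa using Finset.card_le_univ K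
    calc N * 2 ^ K.card ≤ 2 ^ (n - K.card) * 2 ^ K.card := by
          gcongr
          exact (hN.trans h1).trans h2.le
      _ = 2 ^ n := by rw [← pow_add, Nat.sub_add_cancel hKn]
  -- minimal set
  obtain ⟨T, hTp, hTmin⟩ : ∃ T : Finset (Fin n), (∏ i ∈ T, (s i (y i)) ^ 2) • q = p ∧
      ∀ i ∈ T, (∏ j ∈ T.erase i, (s j (y j)) ^ 2) • q ≠ p := by
    have hex : ∃ T : Finset (Fin n), (∏ i ∈ T, (s i (y i)) ^ 2) • q = p := ⟨univ, rfl⟩
    obtain ⟨T, hT, hmin⟩ := WellFounded.has_min (measure (fun T : Finset (Fin n) => T.card)).wf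
      {T | (∏ i ∈ T, (s i (y i)) ^ 2) • q = p} hex
    refine ⟨T, hT, fun i hi h => hmin _ h ?_⟩
    exact Finset.card_erase_lt_of_mem hi
  have hcardT : 2 ^ T.card ≤ w :=
    irredundant (fun i => (s i (y i)) ^ 2) (fun i => hsq i _) q p T hTp hTmin
  set W : Finset (Fin n) := K ∪ T with hW
  have hcardW : 2 ^ W.card ≤ 2 ^ K.card * 2 ^ T.card := by
    rw [← pow_add]
    exact Nat.pow_le_pow_right (by norm_num) (Finset.card_union_le _ _)
  set g : Fin n → M := fun i => s i 0 * s i 1 with hg
  have hgood : ∀ i, i ∉ W → ∀ b, (s i b) ^ 2 • p = p := by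
    intro i hi b
    by_contra h
    apply hi
    rw [hW, Finset.mem_union]
    left
    rw [hK, Finset.mem_filter]
    exact ⟨Finset.mem_univ _, fun h' => h (h' b)⟩
  have hg2 : ∀ i, i ∉ W → (g i * g i) • p = p := by
    intro i hi
    have : g i * g i = (s i 0) ^ 2 * (s i 1) ^ 2 := by
      rw [hg]; simp only [pow_two]
      exact mul_mul_mul_comm _ _ _ _
    rw [this, mul_smul, hgood i hi 1, hgood i hi 0]
  -- the exponent product
  set G : (Fin n → ZMod 2) → M := fun z => ∏ i ∈ Wᶜ, g i ^ (z i).val with hG
  have hGadd : ∀ z z', G (z + z') • p = (G z * G z') • p := by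
    intro z z'
    rw [hG]
    simp only
    rw [← Finset.prod_mul_distrib]
    apply prod_act_congr
    intro i hi
    rw [Finset.mem_compl] at hi
    rw [Pi.add_apply]
    rcases two_mul_two_pow (z i) with h | h <;> rcases two_mul_two_pow (z' i) with h' | h' <;>
      rw [h, h']
    · simp
    · simp
    · simp
    · have e : ((1 : ZMod 2) + 1).val = 0 := by decide
      have e' : (1 : ZMod 2).val = 1 := by decide
      rw [e, e', pow_zero, pow_one, one_smul, hg2 i hi]
  let L : AddSubgroup (Fin n → ZMod 2) :=
    { carrier := {z | (∀ i ∈ W, z i = 0) ∧ G z • p = p}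
      zero_mem' := ⟨fun _ _ => rfl, by rw [hG]; simp⟩
      add_mem' := by
        intro a b ha hb
        refine ⟨fun i hi => ?_, ?_⟩
        · rw [Pi.add_apply, ha.1 i hi, hb.1 i hi, add_zero]
        · rw [hGadd, mul_smul, hb.2, ha.2]
      neg_mem' := by
        intro a ha
        have : -a = a := by
          funext i
          have : ∀ t : ZMod 2, -t = t := by decide
          exact this _
        rw [this]; exact ha }
  have hLmem : ∀ z, z ∈ L ↔ (∀ i ∈ W, z i = 0) ∧ G z • p = p := fun z => Iff.rfl
  have hneg : ∀ a b : Fin n → ZMod 2, a - b = a + b := by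
    intro a b
    funext i
    have : ∀ t u : ZMod 2, t - u = t + u := by decide
    exact this _ _
  refine ⟨L, ?_, ?_⟩
  · -- acceptance
    intro x hx
    rw [hLmem] at hx
    have hxW : ∀ i ∈ W, x i = y i := by
      intro i hi
      have := hx.1 i hi
      rw [Pi.sub_apply, sub_eq_zero] at this
      exact this
    have hfix : ∀ u : Fin n → ZMod 2, (∀ i ∈ W, u i = y i) → val s u ^ 2 • q = p := by
      intro u hu
      rw [hval2, ← Finset.prod_sdiff (Finset.subset_univ T), mul_smul]
      have e1 : (∏ i ∈ T, (s i (u i)) ^ 2) = ∏ i ∈ T, (s i (y i)) ^ 2 := by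
        apply Finset.prod_congr rfl
        intro i hi
        rw [hu i (Finset.mem_union_right _ hi)]
      rw [e1, hTp]
      apply prod_act_fix
      intro i _
      by_cases hi : i ∈ W
      · rw [hu i hi]; exact hcompat y rfl i
      · exact hgood i hi _
    have hvq : ∀ u : Fin n → ZMod 2, (∀ i ∈ W, u i = y i) → val s u • q = val s u • p := by
      intro u hu
      have e : val s u = val s u * val s u ^ 2 := by
        rw [← pow_succ', val, ← Finset.prod_pow]
        exact Finset.prod_congr rfl (fun i _ => (hs i _).symm)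
      conv_lhs => rw [e]
      rw [mul_smul, hfix u hu]
    rw [hr, hvq x hxW, hvq y (fun _ _ => rfl)]
    have e2 : val s x • p = (val s y * G (x - y)) • p := by
      have e3 : val s y * G (x - y)
          = ∏ i, (s i (y i) * (if i ∈ W then 1 else g i ^ ((x - y) i).val)) := by
        rw [Finset.prod_mul_distrib, val, hG]
        congr 1
        rw [Finset.prod_ite]
        simp only [Finset.prod_const_one, one_mul]
        apply Finset.prod_congr _ (fun _ _ => rfl)
        ext i; simp
      rw [e3, val]
      apply prod_act_congr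
      intro i _
      by_cases hi : i ∈ W
      · rw [if_pos hi, hxW i hi, mul_one]
      · rw [if_neg hi, hneg, Pi.add_apply]
        have e' : (1 : ZMod 2).val = 1 := by decide
        have e0 : ((1 : ZMod 2) + 1).val = 0 := by decide
        rcases two_mul_two_pow (x i) with h | h <;> rcases two_mul_two_pow (y i) with h' | h' <;>
          rw [h, h']
        · simp
        · rw [zero_add, e', pow_one, hg]
          simp only
          rw [mul_left_comm, ← pow_two, mul_smul, hgood i hi 1]
        · rw [add_zero, e', pow_one, hg]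
          simp only
          rw [← mul_assoc, ← pow_two, mul_comm, mul_smul, hgood i hi 0]
        · rw [e0, pow_zero, mul_one]
    rw [e2, mul_smul, hx.2]
  · -- index
    have hidx : L.index ≤ 2 ^ W.card * w := by
      have hcardf : Fintype.card (({i // i ∈ W} → ZMod 2) × Q) = 2 ^ W.card * w := by
        rw [Fintype.card_prod, Fintype.card_fun, ZMod.card, Fintype.card_coe]
      rw [← hcardf, AddSubgroup.index, ← Nat.card_eq_fintype_card]
      let Φ : (Fin n → ZMod 2) ⧸ L → (({i // i ∈ W} → ZMod 2) × Q) :=
        fun a => (fun i => a.out i.1, G a.out • p)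
      refine Nat.card_le_card_of_injective Φ ?_
      intro a b hab
      have h1 : (fun i : {i // i ∈ W} => a.out i.1) = fun i => b.out i.1 := (Prod.ext_iff.1 hab).1
      have h2 : G a.out • p = G b.out • p := (Prod.ext_iff.1 hab).2
      rw [← Quotient.out_eq' a, ← Quotient.out_eq' b]
      apply (QuotientAddGroup.eq (s := L)).2
      rw [hLmem]
      have e : -a.out + b.out = a.out + b.out := by
        funext i
        have : ∀ t u : ZMod 2, -t + u = t + u := by decide
        exact this _ _
      rw [e]
      refine ⟨fun i hi => ?_, ?_⟩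
      · have := congrFun h1 ⟨i, hi⟩
        simp only at this
        rw [Pi.add_apply, this]
        have : ∀ t : ZMod 2, t + t = 0 := by decide
        exact this _
      · rw [hGadd, mul_smul, ← h2, ← mul_smul, ← hGadd]
        have : a.out + a.out = 0 := by
          funext i
          have : ∀ t : ZMod 2, t + t = 0 := by decide
          exact this _
        rw [this, hG]; simp
    calc N * L.index ≤ N * (2 ^ W.card * w) := by gcongr
      _ ≤ N * ((2 ^ K.card * 2 ^ T.card) * w) := by gcongr
      _ = (N * 2 ^ K.card) * (2 ^ T.card * w) := by ring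
      _ ≤ 2 ^ n * (w * w) := by gcongr
      _ = 2 ^ n * w ^ 2 := by rw [pow_two]

end Helper20.Comm
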